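import Pool.Agent.Helper74.WB.St

/-! Project WB, module DEM: a demand may be deleted. -/

set_option autoImplicit false

namespace Pool.Agent.Helper34.WB

open Pool.Agent.Helper74 Pool.Agent.Helper74.WB

private theorem dem_aux {Λ : Type} (i : Λ) (w : List ((Λ × Bool) × Bool)) (h : OP w) :
    ∀ u v : List ((Λ × Bool) × Bool), w = u ++ ((i, false), false) :: v → QW w → OP (u ++ v) := by
  induction h with
  | nil =>
    intro u v e _
    exact absurd e.symm (by simp)
  | skip x w' hw ih =>
    intro u v e hQ
    cases u with
    | nil =>
      simp only [List.nil_append, List.cons.injEq, Prod.mk.injEq] at e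
      exact absurd e.1.2 (by decide)
    | cons a u' =>
      simp only [List.cons_append, List.cons.injEq] at e
      obtain ⟨rfl, e2⟩ := e
      exact OP.skip x _ (ih u' v e2 fun b hb => hQ b (List.mem_cons_of_mem _ hb))
  | wrap x o o' p q hp hq ihp ihq =>
    intro u v e hQ
    have hQp : QW p := fun b hb => hQ b (by simp [hb])
    have hQq : QW q := fun b hb => hQ b (by simp [hb])
    have hox : o = x.2 := hQ (x, o) (by simp)
    have hox' : o' = (iv x).2 := hQ (iv x, o') (by simp)
    cases u with
    | nil =>
      simp only [List.nil_append, List.cons.injEq, Prod.mk.injEq] at e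
      obtain ⟨⟨e1, e2⟩, e3⟩ := e
      subst e1
      have ho' : o' = true := by rw [hox']; rfl
      subst ho'
      rw [List.nil_append, ← e3]
      exact op_append _ _ hp (OP.skip _ _ hq)
    | cons a u' =>
      simp only [List.cons_append, List.cons.injEq] at e
      obtain ⟨ea, e2⟩ := e
      subst ea
      have hmid : ∀ (_ : (iv x, o') = ((i, false), false)), OP ((x, o) :: (p ++ q)) := by
        intro h1
        have h2 : iv x = (i, false) := congrArg Prod.fst h1
        have h3 : x = (i, true) := by
          rw [iv_eq_iff] at h2
          exact h2
        have ho : o = true := by rw [hox, h3]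
        rw [ho]
        exact OP.skip _ _ (op_append _ _ hp hq)
      rcases List.append_eq_append_iff.1 e2 with ⟨c, e3, e4⟩ | ⟨c, e3, e4⟩
      · cases c with
        | nil =>
          simp only [List.nil_append, List.cons.injEq] at e4
          rw [List.append_nil] at e3
          rw [e3, ← e4.2]
          exact hmid e4.1
        | cons b c =>
          simp only [List.cons_append, List.cons.injEq] at e4
          have h1 := ihq c v e4.2 hQq
          rw [e3, ← e4.1]
          have e5 : (x, o) :: (p ++ (iv x, o') :: c) ++ v = (x, o) :: (p ++ (iv x, o') :: (c ++ v)) := by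
            simp
          rw [e5]
          exact OP.wrap x o o' p _ hp h1
      · cases c with
        | nil =>
          simp only [List.nil_append, List.cons.injEq] at e4
          rw [List.append_nil] at e3
          rw [← e3, e4.2]
          exact hmid e4.1.symm
        | cons b c =>
          simp only [List.cons_append, List.cons.injEq] at e4
          have e3' : p = u' ++ ((i, false), false) :: c := by rw [e3, e4.1]
          have h1 := ihp u' c e3' hQp
          rw [e4.2]
          have e5 : (x, o) :: u' ++ (c ++ (iv x, o') :: q) = (x, o) :: ((u' ++ c) ++ (iv x, o') :: q) := by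
            simp
          rw [e5]
          exact OP.wrap x o o' _ q h1 hq

/-- **DEM.** -/
theorem hDEM : StDEM := by
  intro Λ i u v hQ h
  exact dem_aux i _ h u v rfl hQ

end Pool.Agent.Helper34.WB
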