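import Pool.Agent.Helper74.WB.St

/-! Project WB, module REL: other labels. -/

set_option autoImplicit false

namespace Pool.Agent.Helper34.WB

open Pool.Agent.Helper74 Pool.Agent.Helper74.WB

private theorem rel_aux {Λ Λ' : Type} (e : Λ → Λ') (he : Function.Injective e)
    (w' : List ((Λ' × Bool) × Bool)) (h : OP w') :
    ∀ w : List ((Λ × Bool) × Bool), w.map (rl e) = w' → OP w := by
  induction h with
  | nil =>
    intro w hw
    rw [List.map_eq_nil_iff] at hw
    rw [hw]
    exact OP.nil
  | skip x' w' _ ih =>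
    intro w hw
    obtain ⟨a, w1, rfl, h1, h2⟩ := List.map_eq_cons_iff.1 hw
    rcases a with ⟨x, o⟩
    have ho : o = true := congrArg Prod.snd h1
    subst ho
    exact OP.skip x w1 (ih w1 h2)
  | wrap x' o o' u' v' _ _ ihu ihv =>
    intro w hw
    obtain ⟨a, w1, rfl, h1, h2⟩ := List.map_eq_cons_iff.1 hw
    obtain ⟨l1, l2, rfl, h3, h4⟩ := List.map_eq_append_iff.1 h2
    obtain ⟨b, l3, rfl, h5, h6⟩ := List.map_eq_cons_iff.1 h4
    rcases a with ⟨⟨i, s⟩, p⟩
    rcases b with ⟨⟨j, t⟩, q⟩
    have e1 : (e i, s) = x' := congrArg Prod.fst h1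
    have e2 : (e j, t) = iv x' := congrArg Prod.fst h5
    rw [← e1] at e2
    have e3 : e j = e i := congrArg Prod.fst e2
    have e4 : t = !s := congrArg Prod.snd e2
    have e5 : j = i := he e3
    subst e5
    subst e4
    exact OP.wrap (j, s) p q l1 l3 (ihu l1 h3) (ihv l3 h6)

/-- **REL.** -/
theorem hREL : StREL := by
  intro Λ Λ' e he w
  constructor
  · intro h
    induction h with
    | nil => exact OP.nil
    | skip x w _ ih => exact OP.skip (e x.1, x.2) _ ih
    | wrap x o o' u v _ _ ihu ihv =>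
      rw [List.map_cons, List.map_append, List.map_cons]
      exact OP.wrap (e x.1, x.2) o o' _ _ ihu ihv
  · intro h
    exact rel_aux e he _ h w rfl

end Pool.Agent.Helper34.WB
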